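import Pool.Agent.helper90.IV.Spec

/-!
# MP_26dbae_co: module OP (the ordinary theorem with two colourings)
-/

set_option autoImplicit false

open scoped BigOperators

namespace Pool.Agent.helper46.IV

open Pool.Agent.helper23.TH Pool.Agent.KS Pool.Agent.IV

open Classical

/-- the restriction of `A` to a set of vertices -/
theorem prE_sub {V K : Type} (A : V → V → Prop) (lam : Fin 2 → V → V → K) (h : PrE A lam)
    (U : Finset V) : PrE (fun u w : {v // v ∈ U} => A u.1 w.1) (fun l u w => lam l u.1 w.1) where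
  symm a b hab := h.symm a.1 b.1 hab
  irr a := h.irr a.1
  csymm l a b hab := h.csymm l a.1 b.1 hab
  prop l a b b' hab hab' he := Subtype.ext (h.prop l a.1 b.1 b'.1 hab hab' he)

theorem rb_sub {I V K : Type} (T : Tr I) (A : V → V → Prop) (lam : Fin 2 → V → V → K)
    (U : Finset V) (q : ℕ)
    (h : RB T (fun u w : {v // v ∈ U} => A u.1 w.1) (fun l u w => lam l u.1 w.1) q) :
    RB T A lam q := by
  obtain ⟨z, y, h1, h2, h3, h4, h5⟩ := h
  refine ⟨fun j i => (z j i).1, fun r => (y r).1, ?_, ?_, ?_, ?_, ?_⟩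
  · intro j
    exact ⟨fun i i' hii => (h1 j).1 i i' hii, fun r => (h1 j).2 r⟩
  · intro j i j' i' he
    exact h2 j i j' i' (Subtype.ext he)
  · intro r r' he
    exact h3 (Subtype.ext he)
  · intro j i r he
    exact h4 j i r (Subtype.ext he)
  · have hc : ∀ (l : Fin 2) (j : Fin q) (e : T.Ed),
        T.col lam l (fun i => (z j i).1) (fun r => (y r).1) e =
          T.col (fun l (u w : {v // v ∈ U}) => lam l u.1 w.1) l (z j) y e := by
      intro l j e
      rcases e with e | e <;> rfl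
    intro l j e j' e' he
    rw [hc, hc] at he
    exact h5 l j e j' e' he

theorem deg_sub {V : Type} [Fintype V] (A : V → V → Prop) (U : Finset V) (v : {v // v ∈ U}) :
    deg (fun u w : {v // v ∈ U} => A u.1 w.1) v = dg A U v.1 := by
  unfold deg dg
  refine Finset.card_bij (fun w _ => w.1) ?_ ?_ ?_
  · intro w hw
    simp only [Finset.mem_filter, Finset.mem_univ, true_and] at hw
    simp only [Finset.mem_filter]
    exact ⟨w.2, hw⟩
  · intro w _ w' _ he
    exact Subtype.ext he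
  · intro w hw
    simp only [Finset.mem_filter] at hw
    exact ⟨⟨w, hw.1⟩, by simp only [Finset.mem_filter, Finset.mem_univ, true_and]; exact hw.2, rfl⟩

theorem ew_pos (s h : ℕ) (pj : Fin (h + 1) → ℕ) (hs : 4 ≤ s) (U : Finset (CI h pj))
    (hU : U.Nonempty) : 1 ≤ (cat s h pj).ew U := by
  obtain ⟨i, hi⟩ := hU
  have hro : 1 ≤ (cat s h pj).ro i := by
    rcases i with i | i | i
    · show 1 ≤ s - 2
      omega
    · show 1 ≤ s - 2
      omega
    · show 1 ≤ s - 1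
      omega
  have h1 : (cat s h pj).ro i ≤ ∑ i ∈ U, (cat s h pj).ro i :=
    Finset.single_le_sum (f := fun i => (cat s h pj).ro i) (fun _ _ => Nat.zero_le _) hi
  unfold Tr.ew
  omega

theorem OP (hMD : MD_stmt) (hNP : NP_stmt) (hEXT : EXT_stmt) (hHEA : HEA_stmt)
    (hLIT : LIT_stmt) (hTC : TC_stmt) : OP_stmt := by
  intro s h pj ρ q hs hsρ hbal
  have hs4 : (4 : ℝ) ≤ s := by exact_mod_cast hs
  have hρ3 : (3 : ℝ) ≤ ρ := by linarith
  have hρ0 : 0 < ρ := by linarith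
  have hinv : 1 / ρ ≤ 1 / 3 := one_div_le_one_div_of_le (by norm_num) hρ3
  have hinv0 : 0 < 1 / ρ := by positivity
  obtain ⟨κ, hκ, hMD1⟩ := hMD (1 - 1 / ρ) (by linarith) (by linarith)
  obtain ⟨Ch, hHEA1⟩ := hHEA s h pj q (by omega)
  obtain ⟨KE, hKE, hEXT1⟩ := hEXT s h pj q κ (by omega) hκ
  obtain ⟨ε₁, K₁, hε₁, hLIT1⟩ := hLIT (CI h pj) (cat s h pj) s Ch q κ KE (hTC s h pj hs) hκ
  obtain ⟨K₂, hHEA2⟩ := hHEA1 Ch le_rfl κ ε₁ hκ hε₁
  obtain ⟨K₀, hK₀⟩ : ∃ K₀ : ℝ, K₀ = max (max K₁ K₂) 1 := ⟨_, rfl⟩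
  have hK01 : 1 ≤ K₀ := by rw [hK₀]; exact le_max_right _ _
  have hK11 : K₁ ≤ K₀ := by rw [hK₀]; exact le_trans (le_max_left _ _) (le_max_left _ _)
  have hK22 : K₂ ≤ K₀ := by rw [hK₀]; exact le_trans (le_max_right _ _) (le_max_left _ _)
  obtain ⟨C₁, hC₁, hMD2⟩ := hMD1 K₀ (by linarith)
  refine ⟨C₁, hC₁, ?_⟩
  intro V K _ A lam hPr hV hsum
  obtain ⟨U, d, hUne, hUd, hUdeg⟩ := hMD2 V A hPr.symm hV (by
    have e1 : (1 : ℝ) + (1 - 1 / ρ) = 2 - 1 / ρ := by ring
    rw [e1]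
    exact hsum)
  by_contra hno
  have hno' : ¬ RB (cat s h pj) (fun u w : {v // v ∈ U} => A u.1 w.1)
      (fun l u w => lam l u.1 w.1) q := fun hh => hno (rb_sub _ A lam U q hh)
  have hPr' := prE_sub A lam hPr U
  have hcard : Fintype.card {v // v ∈ U} = U.card := Fintype.card_coe U
  have hUpos : 0 < U.card := Finset.card_pos.2 hUne
  have hn1 : (1 : ℝ) ≤ (U.card : ℝ) := by exact_mod_cast hUpos
  have hlo : ∀ v, d ≤ (deg (fun u w : {v // v ∈ U} => A u.1 w.1) v : ℝ) := by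
    intro v
    rw [deg_sub]
    exact (hUdeg v.1 v.2).1
  have hhi : ∀ v, (deg (fun u w : {v // v ∈ U} => A u.1 w.1) v : ℝ) ≤ κ * d := by
    intro v
    rw [deg_sub]
    exact (hUdeg v.1 v.2).2
  obtain ⟨hN1, hN2, hN3⟩ := hNP ρ K₀ U.card d s (by linarith) (by omega) hsρ hK01 hn1 hUd
  have hd1 : 1 ≤ d := by
    have h1 : (1 : ℝ) ≤ (U.card : ℝ) ^ (1 - 1 / ρ) :=
      Real.one_le_rpow hn1 (by linarith)
    nlinarith
  by_cases hheavy : ε₁ * (Fintype.card {v // v ∈ U} : ℝ) * d ^ s ≤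
      (hst (fun u w : {v // v ∈ U} => A u.1 w.1) Ch s : ℝ)
  · refine hno' (hHEA2 {v // v ∈ U} K _ _ d hPr' (by rw [hcard]; exact hUpos) hd1 hlo hhi ?_ hheavy)
    rw [hcard]
    refine le_trans ?_ hN3
    exact mul_le_mul_of_nonneg_right hK22 (by positivity)
  · push Not at hheavy
    refine hno' (hLIT1 {v // v ∈ U} K _ _ d ε₁ K₀ ?_ le_rfl hK11)
    refine ⟨hPr', by rw [hcard]; exact hUpos, hd1, hκ, hlo, hhi, ?_, ?_, ?_, hheavy.le⟩
    · exact hEXT1 {v // v ∈ U} K _ _ d hPr' (by linarith) hlo hhi hno'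
    · intro W hW
      rw [hcard]
      exact hN1 W.card ((cat s h pj).ew W) (ew_pos s h pj hs W hW) (hbal W)
    · rw [hcard]
      exact hN2

end Pool.Agent.helper46.IV
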